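import Pool.Agent.L7h71.UA.All

set_option autoImplicit false

/-!
# Projects UA, UC: the dichotomy for `Σ₂` sentences with analytic matrix
-/

namespace Pool.Agent.L7h71.UA

open Set Function MeasureTheory
open Pool.Agent.L7h66.UA (XS XIso XYo XDich S_LRA)

variable {a : ℕ → ℕ} {K : ℕ → Type}

theorem lra' (a : ℕ → ℕ) (K : ℕ → Type) [∀ i, TopologicalSpace (K i)] [∀ i, PolishSpace (K i)]
    (B : Set (XS a K ℕ)) (hB : AnalyticSet B) (hiso : ∀ M ∈ B, ∀ N, XIso M N → N ∈ B)
    (hloc : ∀ M ∈ B, ∃ F : Finset ℕ, ∀ N, XYo F M N → N ∈ B) : XDich B := by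
  let _ : ∀ i, MeasurableSpace (K i) := fun i => borel (K i)
  have hb : ∀ i, BorelSpace (K i) := fun i => ⟨rfl⟩
  exact lra a K B hB hiso hloc

/-- The type of quantifier-free types of `n`-tuples. -/
abbrev QT (a : ℕ → ℕ) (K : ℕ → Type) (n : ℕ) : Type :=
  (∀ i, (Fin (a i) → Fin n) → K i) × (Fin n → Fin n → Bool)

/-- The quantifier-free type of a tuple. -/
def qt (M : XS a K ℕ) {n : ℕ} (u : Fin n → ℕ) : QT a K n :=
  (fun i t => M i (u ∘ t), fun p q => decide (u p = u q))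

theorem continuous_qt [∀ i, TopologicalSpace (K i)] {n : ℕ} (u : Fin n → ℕ) :
    Continuous fun M : XS a K ℕ => qt M u :=
  (continuous_pi fun i => continuous_pi fun t => (continuous_apply (u ∘ t)).comp
    (continuous_apply i)).prodMk continuous_const

theorem qt_of {M N : XS a K ℕ} {n : ℕ} {u : Fin n → ℕ} {e : ℕ → ℕ} (he : InjOn e (range u))
    (h : ∀ i (x : Fin (a i) → ℕ), (∀ j, x j ∈ range u) → M i (e ∘ x) = N i x) :
    qt M (e ∘ u) = qt N u := by
  refine Prod.ext ?_ ?_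
  · funext i t
    exact h i (u ∘ t) fun j => mem_range_self _
  · funext p q
    show decide (e (u p) = e (u q)) = decide (u p = u q)
    have : (e (u p) = e (u q)) ↔ u p = u q :=
      ⟨fun h' => he (mem_range_self _) (mem_range_self _) h', fun h' => by rw [h']⟩
    simp only [this]

theorem append_comp {k l : ℕ} (e : ℕ → ℕ) (u : Fin k → ℕ) (v : Fin l → ℕ) :
    e ∘ Fin.append u v = Fin.append (e ∘ u) (e ∘ v) := by
  funext j
  refine Fin.addCases (fun i => ?_) (fun i => ?_) j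
  · simp only [comp_apply, Fin.append_left]
  · simp only [comp_apply, Fin.append_right]

theorem sigma_two (a : ℕ → ℕ) (K : ℕ → Type) [∀ i, TopologicalSpace (K i)]
    [∀ i, PolishSpace (K i)] (k : ℕ → ℕ) (l : ℕ → ℕ → ℕ)
    (Q : ∀ i j, Set (QT a K (k i + l i j))) (hQ : ∀ i j, AnalyticSet (Q i j)) :
    XDich {M : XS a K ℕ | ∃ (i : ℕ) (u : Fin (k i) → ℕ), ∀ (j : ℕ) (v : Fin (l i j) → ℕ),
      qt M (Fin.append u v) ∈ Q i j} := by
  classical
  have i5 : ∀ i, TopologicalSpace.IsCompletelyMetrizableSpace ((Fin (a i) → ℕ) → K i) :=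
    fun i => inferInstance
  have i8 : TopologicalSpace.IsCompletelyMetrizableSpace (XS a K ℕ) :=
    inferInstanceAs (TopologicalSpace.IsCompletelyMetrizableSpace (∀ i, (Fin (a i) → ℕ) → K i))
  have i6 : ∀ i, SecondCountableTopology ((Fin (a i) → ℕ) → K i) := fun i => inferInstance
  have i9 : SecondCountableTopology (XS a K ℕ) :=
    inferInstanceAs (SecondCountableTopology (∀ i, (Fin (a i) → ℕ) → K i))
  have i10 : PolishSpace (XS a K ℕ) := {}
  refine lra' a K _ ?_ ?_ ?_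
  · have h1 : {M : XS a K ℕ | ∃ (i : ℕ) (u : Fin (k i) → ℕ), ∀ (j : ℕ) (v : Fin (l i j) → ℕ),
        qt M (Fin.append u v) ∈ Q i j} = ⋃ (p : Σ i, Fin (k i) → ℕ),
          ⋂ (q : Σ j, Fin (l p.1 j) → ℕ),
            (fun M : XS a K ℕ => qt M (Fin.append p.2 q.2)) ⁻¹' Q p.1 q.1 := by
      ext M
      simp only [mem_iUnion, mem_iInter, mem_preimage]
      exact ⟨fun ⟨i, u, h⟩ => ⟨⟨i, u⟩, fun q => h q.1 q.2⟩,
        fun ⟨p, h⟩ => ⟨p.1, p.2, fun j v => h ⟨j, v⟩⟩⟩
    rw [h1]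
    refine AnalyticSet.iUnion fun p => ?_
    by_cases hne : Nonempty (Σ j, Fin (l p.1 j) → ℕ)
    · refine AnalyticSet.iInter fun q => ?_
      exact (hQ p.1 q.1).preimage (continuous_qt _)
    · exact absurd ⟨⟨0, fun _ => 0⟩⟩ hne
  · rintro M ⟨i, u, h⟩ N ⟨e, he⟩
    refine ⟨i, e ∘ u, fun j v => ?_⟩
    have h1 : Fin.append (e ∘ u) v = e ∘ Fin.append u (e.symm ∘ v) := by
      rw [append_comp]
      congr 1
      funext j'
      exact (e.apply_symm_apply _).symm
    rw [h1]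
    have h2 : qt N (e ∘ Fin.append u (e.symm ∘ v)) = qt M (Fin.append u (e.symm ∘ v)) :=
      qt_of e.injective.injOn fun i' x _ => he i' x
    rw [h2]
    exact h j _
  · rintro M ⟨i, u, h⟩
    refine ⟨Finset.univ.image u, fun N hN => ⟨i, u, fun j v => ?_⟩⟩
    obtain ⟨e, h1, h2, h3⟩ := hN (Finset.univ.image (Fin.append u v))
    have hr : (Finset.univ.image (Fin.append u v) : Set ℕ) = range (Fin.append u v) := by
      simp
    have h4 : qt M (e ∘ Fin.append u v) = qt N (Fin.append u v) := by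
      refine qt_of ?_ fun i' x hx => h3 i' x fun j' => ?_
      · rw [← hr]
        exact h1
      · rw [← Finset.mem_coe, hr]
        exact hx j'
    rw [← h4, append_comp]
    have h5 : e ∘ u = u := funext fun p => h2 _ (Finset.mem_image_of_mem _ (Finset.mem_univ p))
    rw [h5]
    exact h j _

end Pool.Agent.L7h71.UA
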