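import Pool.Agent.L7h66.UA.StmX
import Pool.Agent.L7h71.UN.Fs

set_option autoImplicit false

/-!
# Project UA: isomorphism-invariant `F_σ` classes of structures with values in Polish spaces
-/

namespace Pool.Agent.L7h71.UA.Fsx

open Set Filter Function
open Pool.Agent.L7h66.UA (XS XIso XYo S_LRC)
open Pool.Agent.L7h71.UN (perm_of_injOn)

variable {a : ℕ → ℕ} {K : ℕ → Type}

/-- Isomorphism-invariant `F_σ` classes are closed under younger structures over finite sets. -/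
theorem fsigma_loc [∀ i, TopologicalSpace (K i)] (C : ℕ → Set (XS a K ℕ))
    (hC : ∀ n, IsClosed (C n)) (hiso : ∀ M ∈ ⋃ n, C n, ∀ N, XIso M N → N ∈ ⋃ n, C n)
    (M : XS a K ℕ) (hM : M ∈ ⋃ n, C n) :
    ∃ F : Finset ℕ, ∀ N, XYo F M N → N ∈ ⋃ n, C n := by
  classical
  let P : Set ((ℕ → ℕ) × (ℕ → ℕ)) := {p | (∀ n, p.1 (p.2 n) = n) ∧ ∀ n, p.2 (p.1 n) = n}
  have hP : IsClosed P := by
    have key : ∀ n : ℕ, Continuous fun p : (ℕ → ℕ) × (ℕ → ℕ) => p.1 (p.2 n) := by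
      intro n
      have h1 : Continuous fun q : (ℕ → ℕ) × ℕ => q.1 q.2 :=
        continuous_prod_of_discrete_right.2 fun m => continuous_apply m
      exact h1.comp (continuous_fst.prodMk ((continuous_apply n).comp continuous_snd))
    have key' : ∀ n : ℕ, Continuous fun p : (ℕ → ℕ) × (ℕ → ℕ) => p.2 (p.1 n) := fun n =>
      (key n).comp continuous_swap
    have h1 : P = (⋂ n, {p | p.1 (p.2 n) = n}) ∩ ⋂ n, {p | p.2 (p.1 n) = n} := by
      ext p
      simp only [mem_inter_iff, mem_iInter]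
      exact Iff.rfl
    rw [h1]
    exact (isClosed_iInter fun n => isClosed_eq (key n) continuous_const).inter
      (isClosed_iInter fun n => isClosed_eq (key' n) continuous_const)
  have : PolishSpace P := hP.polishSpace
  have hne : Nonempty P := ⟨⟨(id, id), fun _ => rfl, fun _ => rfl⟩⟩
  let tr : P → XS a K ℕ := fun p i v => M i (p.1.1 ∘ v)
  have htr : Continuous tr := by
    refine continuous_pi fun i => continuous_pi fun v => ?_
    have h1 : Continuous fun p : P => (p.1.1 ∘ v : Fin (a i) → ℕ) :=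
      continuous_pi fun j => (continuous_apply (v j)).comp (continuous_fst.comp continuous_subtype_val)
    exact (continuous_of_discreteTopology (f := M i)).comp h1
  have hcov : ⋃ n, tr ⁻¹' C n = univ := by
    rw [← preimage_iUnion, eq_univ_iff_forall]
    intro p
    refine hiso M hM _ ⟨⟨p.1.2, p.1.1, p.2.1, p.2.2⟩, fun i x => ?_⟩
    show M i (p.1.1 ∘ (p.1.2 ∘ x)) = M i x
    congr 1
    funext j
    exact p.2.1 (x j)
  obtain ⟨n, p₀, hp₀⟩ := nonempty_interior_of_iUnion_of_closed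
    (fun n => (hC n).preimage htr) hcov
  obtain ⟨U, hU, hUeq⟩ := isOpen_induced_iff.1 (isOpen_interior (s := tr ⁻¹' C n))
  have hU0 : p₀.1 ∈ U := by
    have : p₀ ∈ Subtype.val ⁻¹' U := by rw [hUeq]; exact hp₀
    exact this
  obtain ⟨U₁, U₂, hU₁, hU₂, h1, h2, h12⟩ := isOpen_prod_iff.1 hU p₀.1.1 p₀.1.2 hU0
  obtain ⟨I₁, u₁, hu₁, hI₁⟩ := isOpen_pi_iff.1 hU₁ _ h1
  obtain ⟨I₂, u₂, hu₂, hI₂⟩ := isOpen_pi_iff.1 hU₂ _ h2
  -- the finite condition
  have hcond : ∀ p : P, (∀ z ∈ I₁ ∪ I₂.image p₀.1.2, p.1.1 z = p₀.1.1 z) → tr p ∈ C n := by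
    intro p hp
    have h3 : p ∈ interior (tr ⁻¹' C n) := by
      rw [← hUeq]
      refine h12 ⟨hI₁ fun z hz => ?_, hI₂ fun z hz => ?_⟩
      · show p.1.1 z ∈ u₁ z
        rw [hp z (Finset.mem_union_left _ hz)]
        exact (hu₁ z hz).2
      · show p.1.2 z ∈ u₂ z
        have h4 := hp (p₀.1.2 z) (Finset.mem_union_right _ (Finset.mem_image_of_mem _ hz))
        rw [p₀.2.1 z] at h4
        have h5 := p.2.2 (p₀.1.2 z)
        rw [h4] at h5
        rw [h5]
        exact (hu₂ z hz).2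
    have h6 : p ∈ tr ⁻¹' C n := interior_subset h3
    exact h6
  refine ⟨(I₁ ∪ I₂.image p₀.1.2).image p₀.1.1, fun N hN => ?_⟩
  have h0 : (fun i (x : Fin (a i) → ℕ) => N i (p₀.1.1 ∘ x)) ∈ C n := by
    rw [← (hC n).closure_eq, mem_closure_iff]
    intro O hO hON
    obtain ⟨J, w, hw, hJ⟩ := isOpen_pi_iff.1 hO _ hON
    have hex : ∀ i ∈ J, ∃ (J' : Finset (Fin (a i) → ℕ)), ∀ f : (Fin (a i) → ℕ) → K i,
        (∀ x ∈ J', f x = N i (p₀.1.1 ∘ x)) → f ∈ w i := by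
      intro i hi
      obtain ⟨J', w', hw', hJ'⟩ := isOpen_pi_iff.1 (hw i hi).1 _ (hw i hi).2
      refine ⟨J', fun f hf => hJ' fun x hx => ?_⟩
      rw [hf x hx]
      exact (hw' x hx).2
    choose! J' hJ' using hex
    let X : Finset ℕ := J.biUnion fun i => (J' i).biUnion fun x => Finset.univ.image x
    let Z : Finset ℕ := I₁ ∪ I₂.image p₀.1.2
    obtain ⟨e, e1, e2, e4⟩ := hN ((X ∪ Z).image p₀.1.1)
    have hinj : InjOn (e ∘ p₀.1.1) ↑(X ∪ Z) := by
      intro a ha b hb hab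
      have h3 := e1 (Finset.mem_coe.2 (Finset.mem_image_of_mem _ ha))
        (Finset.mem_coe.2 (Finset.mem_image_of_mem _ hb)) hab
      have h4 := congrArg p₀.1.2 h3
      rwa [p₀.2.2, p₀.2.2] at h4
    obtain ⟨g, hg⟩ := perm_of_injOn (e ∘ p₀.1.1) (X ∪ Z) hinj
    let p : P := ⟨(g, g.symm), fun m => g.apply_symm_apply m, fun m => g.symm_apply_apply m⟩
    refine ⟨tr p, hJ fun i hi => hJ' i hi _ fun x hx => ?_, hcond p fun z hz => ?_⟩
    · have hxX : ∀ j, x j ∈ X := fun j =>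
        Finset.mem_biUnion.2 ⟨i, hi, Finset.mem_biUnion.2
          ⟨x, hx, Finset.mem_image_of_mem _ (Finset.mem_univ j)⟩⟩
      show M i (g ∘ x) = _
      have h4 : (g : ℕ → ℕ) ∘ x = e ∘ (p₀.1.1 ∘ x) := by
        funext j
        exact hg _ (Finset.mem_union_left _ (hxX j))
      rw [h4]
      exact e4 i _ fun j => Finset.mem_image_of_mem _ (Finset.mem_union_left _ (hxX j))
    · show g z = p₀.1.1 z
      rw [hg z (Finset.mem_union_right _ hz)]
      exact e2 _ (Finset.mem_image_of_mem _ hz)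
  refine hiso _ (mem_iUnion.2 ⟨n, h0⟩) N ⟨⟨p₀.1.1, p₀.1.2, p₀.2.2, p₀.2.1⟩, fun i x => rfl⟩

/-- The theorem for `F_σ` classes. -/
theorem fsigma (hL : S_LRC) (a : ℕ → ℕ) (K : ℕ → Type) [∀ i, TopologicalSpace (K i)]
    [∀ i, PolishSpace (K i)] (C : ℕ → Set (XS a K ℕ)) (hC : ∀ n, IsClosed (C n))
    (hiso : ∀ M ∈ ⋃ n, C n, ∀ N, XIso M N → N ∈ ⋃ n, C n) :
    (∃ D : Set (XS a K ℕ), D.Countable ∧ ∀ M ∈ ⋃ n, C n, ∃ N ∈ D, XIso N M) ∨
    (∃ g : (ℕ → Bool) → XS a K ℕ, Continuous g ∧ (∀ c, g c ∈ ⋃ n, C n) ∧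
      ∀ c d, XIso (g c) (g d) → c = d) := by
  let _ : ∀ i, MeasurableSpace (K i) := fun i => borel (K i)
  have hb : ∀ i, BorelSpace (K i) := fun i => ⟨rfl⟩
  have i5 : ∀ i, BorelSpace ((Fin (a i) → ℕ) → K i) := fun i => inferInstance
  have i6 : ∀ i, SecondCountableTopology ((Fin (a i) → ℕ) → K i) := fun i => inferInstance
  have i7 : BorelSpace (XS a K ℕ) := inferInstanceAs (BorelSpace (∀ i, (Fin (a i) → ℕ) → K i))
  exact hL a K (⋃ n, C n) (MeasurableSet.iUnion fun n => (hC n).measurableSet) hiso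
    (fsigma_loc C hC hiso)

end Pool.Agent.L7h71.UA.Fsx
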