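import Pool.Agent.L7h66.UA.Asm
import Pool.Agent.L7h66.UA.AsmX
import Pool.Agent.L7h66.UA.AsmY
import Pool.Agent.L7h66.UA.Pfx
import Pool.Agent.L7h66.UA.Cta
import Pool.Agent.L7h66.UA.Lra
import Pool.Agent.L7h71.UN.All
import Pool.Agent.L7h71.UA.Fsx
import Pool.Agent.L7h71.UC.Csp
import Pool.Agent.L7h23.UA.Tow
import Pool.Agent.L7h23.UA.Ppx
import Pool.Agent.L7h51.UA.Fra
import Pool.Agent.L7h51.UA.Frb
import Pool.Agent.L7h51.UA.Nx1
import Pool.Agent.L7h42.UA.Frc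
import Pool.Agent.L7h50.UA.Typ
import Pool.Agent.L7h50.UA.Ceq
import Pool.Agent.L7h50.UA.Glu
import Pool.Agent.L7h97.UA.Cna
import Pool.Agent.L7h53.UA.Bll
import Pool.Agent.L7h53.UA.Cnt
import Pool.Agent.L7h45.UA.Bld
import Pool.Agent.L7h29.UA.Sys
import Pool.Agent.L7h78.UA.Den
import Pool.Agent.L7h78.UA.Kon
import Pool.Agent.L7h78.UA.Sub
import Pool.Agent.L7h77.UA.Enu
import Pool.Agent.L7h77.UA.Nx2
import Pool.Agent.L7h77.UA.Rex
import Pool.Agent.L7h18.UA.Inv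
import Pool.Agent.L7h18.UA.Sig
import Pool.Agent.L7h87.UA.Lrc
import Pool.Agent.L7h73.UC.Csf
import Pool.Agent.L7h73.UC.Cst
import Pool.Agent.L7h47.UC.Euc
import Pool.Agent.L7h47.UC.Foc

set_option autoImplicit false

/-!
# Projects UA and UC: all parts together
-/

namespace Pool.Agent.L7h71.UA

open Pool.Agent.L7h66.UA
open Pool.Agent.L7h71.UN (nam)
open Pool.Agent.L7h71.UC (S_CSP S_CSF S_CST S_EUC S_FOC)

theorem tow : S_TOW := L7h23.UA.s_TOW (L7h51.UA.s_FRA L7h51.UN.s_INT)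
  (L7h51.UA.s_FRB (L7h51.UA.s_FRA L7h51.UN.s_INT)) L7h42.UA.s_FRC

theorem typ : S_TYP := L7h50.UA.s_TYP

theorem ceq : S_CEQ := L7h50.UA.s_CEQ typ

theorem cna : S_CNA := L7h97.UA.s_CNA typ ceq L7h50.UA.s_GLU

theorem cnt : S_CNT := L7h53.UA.s_CNT cna ceq

theorem den : S_DEN := L7h78.UA.s_DEN typ ceq

theorem sys : S_SYS := L7h29.UA.s_SYS (L7h45.UA.s_BLD L7h53.UA.s_BLL)

theorem inv : S_INV := L7h18.UA.s_INV typ ceq

theorem ppx : S_PPX := L7h23.UA.X.s_PPX ceq den sys inv L7h78.UA.s_SUB L7h77.UA.s_ENU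

theorem nx1 : S_NX1 := L7h51.UA.s_NX1 L7h73.UN.s_FQ s_PFX L7h77.UA.s_ENU

theorem nx2 : S_NX2 := L7h77.UA.s_NX2 nam

theorem ala : S_ALA := s_ALA nx1 nx2 tow L7h78.UA.s_KON ceq cnt ppx (s_CTA L7h77.UA.s_REX)

theorem lra : S_LRA := s_LRA ala

theorem lrc : S_LRC := by
  intro a K _ _ _ _ B hB hiso hloc
  have i5 : ∀ i, BorelSpace ((Fin (a i) → ℕ) → K i) := fun i => inferInstance
  have i6 : ∀ i, SecondCountableTopology ((Fin (a i) → ℕ) → K i) := fun i => inferInstance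
  have i7 : BorelSpace (XS a K ℕ) := inferInstanceAs (BorelSpace (∀ i, (Fin (a i) → ℕ) → K i))
  have i8 : TopologicalSpace.IsCompletelyMetrizableSpace (XS a K ℕ) :=
    inferInstanceAs (TopologicalSpace.IsCompletelyMetrizableSpace (∀ i, (Fin (a i) → ℕ) → K i))
  have i9 : SecondCountableTopology (XS a K ℕ) :=
    inferInstanceAs (SecondCountableTopology (∀ i, (Fin (a i) → ℕ) → K i))
  have i10 : PolishSpace (XS a K ℕ) := {}
  exact lra a K B hB.analyticSet hiso hloc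

theorem sig : S_SIG := L7h18.UA.Sig.s_SIG lrc

theorem cst : S_CST := L7h73.UC.s_CST (L7h71.UC.Csp.s_CSP lrc) L7h73.UC.s_CSF

theorem foc : Pool.Agent.L7h71.UC.S_FOC := L7h47.UC.s_FOC cst L7h47.UC.s_EUC

end Pool.Agent.L7h71.UA
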