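import Pool.Agent.L7h71.UN.Lift

set_option autoImplicit false

/-!
# Project UA (universal theories in languages of unbounded arity): the frame

`RS a` are the structures on `ℕ` with relations of arities `a 0, a 1, ...`, `RIso` is isomorphism,
`CellR {i | i < n} x` says that the reduct of `x` to the first `n` relations is cellular.
-/

namespace Pool.Agent.L7h71.UA

open Set Filter Function Pool.Agent.L7h71.UN
open Pool.Agent.H533R2.VO (RS RIso)

variable {a : ℕ → ℕ}

/-- The reducts of `x` and `y` to the first `n` relations, with the named tuples `f` and `g`, are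
isomorphic. -/
def RedIso (n : ℕ) {k : ℕ} (x : RS a) (f : Fin k → ℕ) (y : RS a) (g : Fin k → ℕ) : Prop :=
  ∃ σ : Equiv.Perm ℕ, (∀ j, σ (f j) = g j) ∧ ∀ i < n, ∀ v : Fin (a i) → ℕ, y i (σ ∘ v) = x i v

/-- Countably many isomorphism types or perfectly many. -/
def CP (A : Set (RS a)) : Prop :=
  (∃ C : Set (RS a), C.Countable ∧ ∀ y ∈ A, ∃ z ∈ C, RIso z y) ∨
  ∃ g : (ℕ → Bool) → RS a, Continuous g ∧ (∀ c, g c ∈ A) ∧ ∀ c d, RIso (g c) (g d) → c = d

/-- INF (project UA, helper66). The dichotomy for the class of all `y` such that all reducts of `y` to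
finitely many relations are isomorphic to those of `x`, if all these reducts are cellular. -/
def S_INF : Prop :=
  ∀ (a : ℕ → ℕ) (x : RS a), (∀ n, CellR {i | i < n} x) →
    CP {y : RS a | ∀ n, ∃ σ : Equiv.Perm ℕ, ∀ i < n, ∀ v : Fin (a i) → ℕ, y i (σ ∘ v) = x i v}

/-- The same with finitely many named points. -/
def S_INFN : Prop :=
  ∀ (a : ℕ → ℕ) (k : ℕ) (x : RS a) (f : Fin k → ℕ), (∀ n, CellR {i | i < n} x) →
    CP {y : RS a | ∃ g : Fin k → ℕ, ∀ n, RedIso n x f y g}

/-- NAME1 (100-150 lines, elementary). Naming one point. `a'` has a unary relation in front; `x'` is `x`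
with the point `p` named. A cellular decomposition of `x` gives one of `x'`: the cell which contains `p`
is broken and its points are added to the finite part, the other cells of the family are renumbered
(compare `Pool/Agent/L7h89/UN/Cell1.lean`, where a finite set is removed). -/
def S_NAME1 : Prop :=
  ∀ (a : ℕ → ℕ) (x : RS a) (p n : ℕ), CellR {i | i < n} x →
    ∀ x' : RS (fun i => Nat.casesOn i 1 a), (∀ v, x' 0 v = decide (v 0 = p)) →
    (∀ i v, x' (i + 1) v = x i v) → CellR {i | i < n + 1} x'

/-- PERFR (80 lines). The analogue of `S_PERF0` for `RS a`: the same proof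
(`Pool/Agent/L7h66/UN/Perf0.lean`, `Pool.Agent.H566W.perfect_independent`). -/
def S_PERFR : Prop :=
  ∀ (a : ℕ → ℕ) (g : (ℕ → Bool) → RS a) (s : (ℕ → Bool) → ℕ), Continuous g →
    IsLocallyConstant s →
    (∀ (c d : ℕ → Bool) (e : Equiv.Perm ℕ), e (s c) = s d →
      (∀ (i : ℕ) (v : Fin (a i) → ℕ), g d i (e ∘ v) = g c i v) → c = d) →
    ∃ h : (ℕ → Bool) → (ℕ → Bool), Continuous h ∧ ∀ c d, RIso (g (h c)) (g (h d)) → c = d

/-- NAMEK (150 lines), hypotheses `S_INF`, `S_NAME1`, `S_PERFR`: then `S_INFN`.

Proof. Induction on `k`, for all `a`, `x`. For `k = 0` it is `S_INF` (all tuples of length `0` are equal). For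
`k + 1` let `p = f (Fin.last k)`, `a'` and `x'` as in NAME1 (`x'` is `x` with `p` named), and apply the
induction hypothesis to `a'`, `x'`, `f ∘ Fin.castSucc`. Let `tl : RS a' → RS a`, `tl y' i = y' (i + 1)`.
If `C'` is countable for `x'` then `tl '' C'` is for `x`: given `y`, `g` with `RedIso n x f y g` for all `n`, let
`y'` be `y` with `g (Fin.last k)` named. If `g'` is a perfect family for `x'`, then for each `c` the relation
`g' c 0` holds for exactly one point `s c` (`RedIso 1`), `s` is locally constant by continuity, and `c ↦ tl (g' c)`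
with the named point `s c` satisfies the hypothesis of PERFR. -/
def S_NAMEK : Prop := S_INF → S_NAME1 → S_PERFR → S_INFN

/-- The final theorem of the project UA: the dichotomy for all isomorphism-invariant `F_σ` classes. -/
def S_UCLS : Prop :=
  ∀ (a : ℕ → ℕ) (C : ℕ → Set (RS a)), (∀ n, IsClosed (C n)) →
    (∀ x ∈ ⋃ n, C n, ∀ y, RIso x y → y ∈ ⋃ n, C n) → CP (⋃ n, C n)

end Pool.Agent.L7h71.UA
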