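import Pool.Agent.L7h71.UA.Fsx

set_option autoImplicit false

/-!
# Project UA: continuous actions of the infinite symmetric group on compact zero-dimensional spaces
-/

namespace Pool.Agent.L7h71.UA.Top

open Set Filter Function
open Pool.Agent.L7h66.UA (XS XIso XYo S_LRC)
open Pool.Agent.L7h71.UN (perm_of_injOn)

/-- The action of the group of permutations of `ℕ` (topology of pointwise convergence) is continuous. -/
def ContAct (X : Type) [TopologicalSpace X] [MulAction (Equiv.Perm ℕ) X] : Prop :=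
  ∀ (g : Equiv.Perm ℕ) (x : X) (U : Set X), IsOpen U → g • x ∈ U →
    ∃ (F : Finset ℕ) (V : Set X), IsOpen V ∧ x ∈ V ∧
      ∀ h : Equiv.Perm ℕ, (∀ n ∈ F, h n = g n) → ∀ y ∈ V, h • y ∈ U

section

variable {X : Type} [TopologicalSpace X] [CompactSpace X] [T2Space X]
  [MulAction (Equiv.Perm ℕ) X] (hc : ContAct X)
include hc

omit [CompactSpace X] [T2Space X] in
theorem cont_smul (g : Equiv.Perm ℕ) : Continuous fun x : X => g • x := by
  rw [continuous_iff_continuousAt]
  intro x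
  rw [ContinuousAt, tendsto_nhds]
  intro U hU hx
  obtain ⟨F, V, hV, hxV, h⟩ := hc g x U hU hx
  exact mem_of_superset (hV.mem_nhds hxV) fun y hy => h g (fun _ _ => rfl) y hy

omit [T2Space X] in
theorem exists_stab {U : Set X} (hU : IsClopen U) :
    ∃ n : ℕ, ∀ h : Equiv.Perm ℕ, (∀ i < n, h i = i) → ∀ x ∈ U, h • x ∈ U := by
  classical
  have h1 : ∀ x ∈ U, ∃ (F : Finset ℕ) (V : Set X), IsOpen V ∧ x ∈ V ∧
      ∀ h : Equiv.Perm ℕ, (∀ n ∈ F, h n = n) → ∀ y ∈ V, h • y ∈ U := by
    intro x hx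
    exact hc 1 x U hU.2 (by rwa [one_smul])
  choose! F V hV hxV hF using h1
  obtain ⟨t, htU, ht⟩ := hU.1.isCompact.elim_nhds_subcover V fun x hx => (hV x hx).mem_nhds (hxV x hx)
  refine ⟨(t.biUnion F).sup id + 1, fun h hh x hx => ?_⟩
  obtain ⟨y, hy, hxy⟩ := mem_iUnion₂.1 (ht hx)
  refine hF y (htU y hy) h (fun n hn => hh n ?_) x hxy
  exact Nat.lt_succ_of_le (Finset.le_sup (f := id) (Finset.mem_biUnion.2 ⟨y, hy, hn⟩))

/-- The theorem for actions. -/
theorem top (hL : S_LRC) [SecondCountableTopology X] [TotallyDisconnectedSpace X]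
    (C : ℕ → Set X) (hC : ∀ n, IsClosed (C n))
    (hinv : ∀ (g : Equiv.Perm ℕ), ∀ x ∈ ⋃ n, C n, g • x ∈ ⋃ n, C n) :
    (∃ D : Set X, D.Countable ∧ ∀ x ∈ ⋃ n, C n, ∃ y ∈ D, ∃ g : Equiv.Perm ℕ, g • y = x) ∨
    (∃ f : (ℕ → Bool) → X, Continuous f ∧ (∀ c, f c ∈ ⋃ n, C n) ∧
      ∀ c d, (∃ g : Equiv.Perm ℕ, g • f c = f d) → c = d) := by
  classical
  have hcl : Countable (TopologicalSpace.Clopens X) :=
    TopologicalSpace.Clopens.countable_iff_secondCountable.2 inferInstance
  obtain ⟨U, hU⟩ := exists_surjective_nat (TopologicalSpace.Clopens X)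
  choose a ha using fun i => exists_stab hc (U i).isClopen
  have hex : ∀ i (v : Fin (a i) → ℕ), Injective v → ∃ g : Equiv.Perm ℕ, ∀ j : Fin (a i), g (j : ℕ) = v j := by
    intro i v hv
    obtain ⟨g, hg⟩ := perm_of_injOn (fun n => if h : n < a i then v ⟨n, h⟩ else 0)
      (Finset.range (a i)) (by
        intro n hn m hm hnm
        have hn' : n < a i := Finset.mem_range.1 (Finset.mem_coe.1 hn)
        have hm' : m < a i := Finset.mem_range.1 (Finset.mem_coe.1 hm)
        have h1 : v ⟨n, hn'⟩ = v ⟨m, hm'⟩ := by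
          have h2 := hnm
          simp only [hn', hm', dif_pos] at h2
          exact h2
        exact congrArg Fin.val (hv h1))
    refine ⟨g, fun j => ?_⟩
    rw [hg j (Finset.mem_range.2 j.2), dif_pos j.2]
  choose G hG using hex
  let Φ : X → XS a (fun _ => Bool) ℕ := fun x i v =>
    if hv : Injective v then decide ((G i v hv)⁻¹ • x ∈ U i) else false
  -- the value does not depend on the extension
  have hΦ : ∀ (x : X) i (v : Fin (a i) → ℕ) (g : Equiv.Perm ℕ), (∀ j : Fin (a i), g (j : ℕ) = v j) →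
      Φ x i v = decide (g⁻¹ • x ∈ U i) := by
    intro x i v g hg
    have hv : Injective v := by
      intro j j' h
      rw [← hg, ← hg] at h
      exact Fin.ext (g.injective h)
    have h1 : Φ x i v = decide ((G i v hv)⁻¹ • x ∈ U i) := dif_pos hv
    rw [h1]
    have h2 : ∀ g₁ g₂ : Equiv.Perm ℕ, (∀ j : Fin (a i), g₁ j = v j) →
        (∀ j : Fin (a i), g₂ j = v j) → g₁⁻¹ • x ∈ U i → g₂⁻¹ • x ∈ U i := by
      intro g₁ g₂ h₁ h₂ hx
      have h3 := ha i (g₂⁻¹ * g₁) (fun j hj => by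
        rw [Equiv.Perm.mul_apply, h₁ ⟨j, hj⟩, ← h₂ ⟨j, hj⟩]
        exact g₂.symm_apply_apply j) _ hx
      rwa [smul_smul, mul_assoc, mul_inv_cancel, mul_one] at h3
    have h4 : ((G i v hv)⁻¹ • x ∈ U i) ↔ g⁻¹ • x ∈ U i :=
      ⟨h2 _ _ (hG i v hv) hg, h2 _ _ hg (hG i v hv)⟩
    simp only [h4]
  have hcont : Continuous Φ := by
    refine continuous_pi fun i => continuous_pi fun v => ?_
    by_cases hv : Injective v
    · have h1 : (fun x => Φ x i v) = fun x => decide ((G i v hv)⁻¹ • x ∈ U i) := by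
        funext x
        exact dif_pos hv
      rw [h1]
      have h2 : IsClopen {x : X | (G i v hv)⁻¹ • x ∈ U i} :=
        (U i).isClopen.preimage (cont_smul hc _)
      refine (IsLocallyConstant.iff_continuous _).1 ?_
      refine IsLocallyConstant.iff_isOpen_fiber.2 fun b => ?_
      rcases b with _ | _
      · have h3 : (fun x => decide ((G i v hv)⁻¹ • x ∈ U i)) ⁻¹' {false} =
            {x : X | (G i v hv)⁻¹ • x ∈ U i}ᶜ := by
          ext x
          simp
        rw [h3]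
        exact h2.compl.2
      · have h3 : (fun x => decide ((G i v hv)⁻¹ • x ∈ U i)) ⁻¹' {true} =
            {x : X | (G i v hv)⁻¹ • x ∈ U i} := by
          ext x
          simp
        rw [h3]
        exact h2.2
    · have h1 : (fun x => Φ x i v) = fun _ => false := by
        funext x
        exact dif_neg hv
      rw [h1]
      exact continuous_const
  have heq : ∀ (σ : Equiv.Perm ℕ) (x : X) i (v : Fin (a i) → ℕ), Φ (σ • x) i (σ ∘ v) = Φ x i v := by
    intro σ x i v
    by_cases hv : Injective v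
    · rw [hΦ x i v (G i v hv) (hG i v hv), hΦ (σ • x) i (σ ∘ v) (σ * G i v hv) (fun j => by
        rw [Equiv.Perm.mul_apply, hG i v hv]
        rfl), smul_smul, mul_inv_rev, mul_assoc, inv_mul_cancel, mul_one]
    · have hv' : ¬ Injective (⇑σ ∘ v) := fun h => hv (Injective.of_comp h)
      have h1 : Φ x i v = false := dif_neg hv
      have h2 : Φ (σ • x) i (σ ∘ v) = false := dif_neg hv'
      rw [h1, h2]
  have hinj : Injective Φ := by
    intro x y hxy
    by_contra hne
    obtain ⟨V, hV, hxV, hyV⟩ := exists_isClopen_of_totally_separated hne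
    obtain ⟨i, hi⟩ := hU ⟨V, hV⟩
    have h1 := hΦ x i (fun j => j) 1 fun j => rfl
    have h2 := hΦ y i (fun j => j) 1 fun j => rfl
    rw [hxy, h2, inv_one, one_smul, one_smul] at h1
    have h3 : (x ∈ U i) ↔ y ∈ U i := by
      have := decide_eq_decide.1 h1
      exact this.symm
    rw [hi] at h3
    exact hyV (h3.1 hxV)
  -- isomorphisms of codes
  have hiso : ∀ (x : X) (N : XS a (fun _ => Bool) ℕ) (σ : Equiv.Perm ℕ),
      (∀ i (v : Fin (a i) → ℕ), N i (σ ∘ v) = Φ x i v) → N = Φ (σ • x) := by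
    intro x N σ h
    funext i v
    have h1 : v = σ ∘ (⇑σ⁻¹ ∘ v) := by
      funext j
      exact (σ.apply_symm_apply _).symm
    rw [h1, h, heq]
  have hP : PolishSpace Bool := by
    have h1 : SecondCountableTopology Bool := inferInstance
    have h2 : TopologicalSpace.IsCompletelyMetrizableSpace Bool := inferInstance
    exact {}
  rcases Fsx.fsigma hL a (fun _ => Bool) (fun n => Φ '' C n)
    (fun n => ((hC n).isCompact.image hcont).isClosed) (by
      intro M hM N hN
      obtain ⟨n, x, hx, rfl⟩ := mem_iUnion.1 hM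
      obtain ⟨σ, hσ⟩ := hN
      obtain ⟨m, hm⟩ := mem_iUnion.1 (hinv σ x (mem_iUnion.2 ⟨n, hx⟩))
      exact mem_iUnion.2 ⟨m, _, hm, (hiso x N σ hσ).symm⟩) with ⟨D, hD, h⟩ | ⟨g, g1, g2, g3⟩
  · left
    have hch : ∀ N : XS a (fun _ => Bool) ℕ, ∃ y : Option X, ∀ x, Φ x = N → y = some x := by
      intro N
      by_cases hN : ∃ x, Φ x = N
      · obtain ⟨x, hx⟩ := hN
        exact ⟨some x, fun y hy => congrArg some (hinj (hx.trans hy.symm))⟩
      · exact ⟨none, fun x hx => absurd ⟨x, hx⟩ hN⟩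
    choose ψ hψ using hch
    refine ⟨{y | some y ∈ ψ '' D}, (hD.image ψ).preimage (Option.some_injective X), fun x hx => ?_⟩
    obtain ⟨n, hn⟩ := mem_iUnion.1 hx
    obtain ⟨N, hN, σ, hσ⟩ := h (Φ x) (mem_iUnion.2 ⟨n, x, hn, rfl⟩)
    have h1 : Φ (σ⁻¹ • x) = N := by
      funext i v
      have h2 := hσ i v
      have h3 := heq σ⁻¹ x i (σ ∘ v)
      have h4 : (⇑σ⁻¹ ∘ (⇑σ ∘ v)) = v := by
        funext j
        exact σ.symm_apply_apply _
      rw [h4] at h3
      exact h3.trans h2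
    refine ⟨σ⁻¹ • x, ⟨N, hN, hψ N _ h1⟩, σ, ?_⟩
    rw [smul_smul, mul_inv_cancel, one_smul]
  · right
    have h1 : ∀ c, ∃ x, x ∈ ⋃ n, C n ∧ Φ x = g c := by
      intro c
      obtain ⟨n, x, hx, hxc⟩ := mem_iUnion.1 (g2 c)
      exact ⟨x, mem_iUnion.2 ⟨n, hx⟩, hxc⟩
    choose f hf1 hf2 using h1
    refine ⟨f, ?_, hf1, fun c d => ?_⟩
    · have he := hcont.isClosedEmbedding hinj
      rw [he.isInducing.continuous_iff]
      have h2 : Φ ∘ f = g := funext hf2
      rw [h2]
      exact g1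
    · rintro ⟨σ, hσ⟩
      refine g3 c d ⟨σ, fun i v => ?_⟩
      show g d i (σ ∘ v) = g c i v
      rw [← hf2 c, ← hf2 d, ← hσ]
      exact heq σ _ i v

end

end Pool.Agent.L7h71.UA.Top
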