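import Pool.Agent.L7h71.UA.Stm
import Pool.Agent.L7h66.UN.Fin

set_option autoImplicit false

/-!
# Project UA: from one theory to a class
-/

namespace Pool.Agent.L7h71.UA

open Set Filter Function MeasureTheory Pool.Agent.L7h71.UN
open Pool.Agent.H533R2.VO (RS RIso)
open Pool.Agent.L7h66.UN (InvS inv_ext D0 inc)

/-! ### structures with named tuples -/

/-- isomorphism of structures with named tuples -/
def NIso {r k : ℕ} {K : Type} (w : St r K ℕ) (g : Fin k → ℕ) (u : St r K ℕ) (f : Fin k → ℕ) :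
    Prop := ∃ σ : Equiv.Perm ℕ, (∀ j, σ (g j) = f j) ∧ ∀ t : Fin r → ℕ, u (σ ∘ t) = w t

section niso

variable {r k : ℕ} {K : Type} {w u s : St r K ℕ} {g f h : Fin k → ℕ}

theorem NIso.symm (h1 : NIso w g u f) : NIso u f w g := by
  obtain ⟨σ, h1, h2⟩ := h1
  refine ⟨σ.symm, fun j => ?_, fun t => ?_⟩
  · rw [← h1, Equiv.symm_apply_apply]
  · rw [← h2]
    congr 1
    funext i
    simp

theorem NIso.trans (h1 : NIso w g u f) (h2 : NIso u f s h) : NIso w g s h := by
  obtain ⟨σ, h1, h3⟩ := h1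
  obtain ⟨τ, h2, h4⟩ := h2
  refine ⟨σ.trans τ, fun j => ?_, fun t => ?_⟩
  · rw [Equiv.trans_apply, h1, h2]
  · rw [← h3, ← h4]
    rfl

end niso

/-- countably many cellular structures -/
theorem countable_cellular (r : ℕ) (K : Type) [Finite K] :
    ∃ Z : Set (St r K ℕ), Z.Countable ∧ ∀ M : St r K ℕ, Cellular M → ∃ w ∈ Z, Iso w M := by
  classical
  let Q : Type := {q : Σ d m : ℕ, (Fin m → ℕ) // Nonempty (ℕ ≃ Dom q.1 q.2.1 q.2.2)}
  let e0 : ∀ q : Q, ℕ ≃ Dom q.1.1 q.1.2.1 q.1.2.2 := fun q => q.2.some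
  refine ⟨⋃ q : Q, InvS r K (e0 q), countable_iUnion fun q => ?_, fun M hM => ?_⟩
  · have hinj : InjOn (fun (M : St r K ℕ) (t : Fin r → D0 r q.1.1 q.1.2.1 q.1.2.2) =>
        M fun i => (e0 q).symm (inc (t i))) (InvS r K (e0 q)) := by
      intro M hM N hN h
      exact inv_ext hM hN fun t => congrFun h t
    exact (Set.Finite.of_finite_image (Set.toFinite _) hinj).countable
  · obtain ⟨d, m, sz, e, he⟩ := hM
    let q : Q := ⟨⟨d, m, sz⟩, ⟨e⟩⟩
    refine ⟨fun x => M fun i => e.symm (e0 q (x i)), mem_iUnion.2 ⟨q, fun σ x => ?_⟩,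
      ⟨(e0 q).trans e.symm, fun x => rfl⟩⟩
    show M (fun i => e.symm (e0 q ((e0 q).symm (act σ (e0 q (x i)))))) = _
    have h1 := he σ fun i => e.symm (e0 q (x i))
    simp only [Equiv.apply_symm_apply] at h1 ⊢
    exact h1

variable {a : ℕ → ℕ}

/-- a bound for the arities of the first `n` relations -/
def bd (a : ℕ → ℕ) (n : ℕ) : ℕ := (Finset.range n).sup a

theorem le_bd (a : ℕ → ℕ) (n : ℕ) (i : Fin n) : a i ≤ bd a n :=
  Finset.le_sup (Finset.mem_range.2 i.2)

/-- the code of the reduct -/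
abbrev cp (a : ℕ → ℕ) (n : ℕ) (x : RS a) : St (bd a n) (Fin n → Bool) ℕ := ph (le_bd a n) x

theorem redIso_iff {n k : ℕ} {x y : RS a} {f g : Fin k → ℕ} :
    RedIso n x f y g ↔ NIso (cp a n x) f (cp a n y) g := by
  constructor
  · rintro ⟨σ, h1, h2⟩
    exact ⟨σ, h1, fun t => funext fun i => h2 i i.2 _⟩
  · rintro ⟨σ, h1, h2⟩
    refine ⟨σ, h1, fun i hi v => ?_⟩
    have h3 := congrFun (h2 (xt (bd a n) v)) ⟨i, hi⟩
    have hle : a i ≤ bd a n := le_bd a n ⟨i, hi⟩
    have h4 : (fun j => xt (bd a n) v (Fin.castLE hle j)) = v := xt_cast hle v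
    have h5 : cp a n y (σ ∘ xt (bd a n) v) ⟨i, hi⟩ = y i (σ ∘ v) := by
      show y i (fun j => σ (xt (bd a n) v (Fin.castLE hle j))) = _
      congr 1
      funext j
      rw [congrFun h4 j]
      rfl
    have h6 : cp a n x (xt (bd a n) v) ⟨i, hi⟩ = x i v := by
      show x i (fun j => xt (bd a n) v (Fin.castLE hle j)) = _
      rw [h4]
    rw [← h5, ← h6]
    exact h3

theorem cellular_cp {n : ℕ} {x : RS a} (h : CellR {i | i < n} x) : Cellular (cp a n x) := by
  obtain ⟨d, m, sz, e, he⟩ := h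
  exact ⟨d, m, sz, e, fun σ t => funext fun i => he σ i i.2 _⟩

theorem RedIso.symm {n k : ℕ} {x y : RS a} {f g : Fin k → ℕ} (h : RedIso n x f y g) :
    RedIso n y g x f := redIso_iff.2 (redIso_iff.1 h).symm

theorem RedIso.trans {n k : ℕ} {x y z : RS a} {f g h : Fin k → ℕ} (h1 : RedIso n x f y g)
    (h2 : RedIso n y g z h) : RedIso n x f z h :=
  redIso_iff.2 ((redIso_iff.1 h1).trans (redIso_iff.1 h2))

/-- the structures isomorphic to `(w, g)` with the tuple `f`, in a Borel set, form an analytic set -/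
theorem analytic_niso {B : Set (RS a)} (hB : MeasurableSet B) (n k : ℕ) (f g : Fin k → ℕ)
    (w : St (bd a n) (Fin n → Bool) ℕ) :
    AnalyticSet {y : RS a | y ∈ B ∧ NIso w g (cp a n y) f} := by
  have hP : PolishSpace (RS a) := by
    have h1 : SecondCountableTopology (RS a) := inferInstance
    have h2 : TopologicalSpace.IsCompletelyMetrizableSpace (RS a) := inferInstance
    exact {}
  let S : Set (RS a × ((ℕ → ℕ) × (ℕ → ℕ))) :=
    {p | (∀ m, p.2.1 (p.2.2 m) = m) ∧ (∀ m, p.2.2 (p.2.1 m) = m) ∧ (∀ j, p.2.1 (g j) = f j) ∧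
      ∀ t : Fin (bd a n) → ℕ, cp a n p.1 (p.2.1 ∘ t) = w t}
  have hev : Continuous fun q : (ℕ → ℕ) × ℕ => q.1 q.2 :=
    continuous_prod_of_discrete_right.2 fun m => continuous_apply m
  have hc1 : Continuous fun p : RS a × ((ℕ → ℕ) × (ℕ → ℕ)) => p.2.1 :=
    continuous_fst.comp continuous_snd
  have hc2 : Continuous fun p : RS a × ((ℕ → ℕ) × (ℕ → ℕ)) => p.2.2 :=
    continuous_snd.comp continuous_snd
  have hS : IsClosed S := by
    have h1 : S = (⋂ m, {p | p.2.1 (p.2.2 m) = m}) ∩ ((⋂ m, {p | p.2.2 (p.2.1 m) = m}) ∩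
        ((⋂ j, {p | p.2.1 (g j) = f j}) ∩
          ⋂ t : Fin (bd a n) → ℕ, {p | cp a n p.1 (p.2.1 ∘ t) = w t})) := by
      ext p
      simp only [mem_inter_iff, mem_iInter]
      exact Iff.rfl
    rw [h1]
    refine (isClosed_iInter fun m => isClosed_eq
      (hev.comp (hc1.prodMk ((continuous_apply m).comp hc2))) continuous_const).inter
      ((isClosed_iInter fun m => isClosed_eq
        (hev.comp (hc2.prodMk ((continuous_apply m).comp hc1))) continuous_const).inter
      ((isClosed_iInter fun j => isClosed_eq ((continuous_apply (g j)).comp hc1)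
        continuous_const).inter (isClosed_iInter fun t => ?_)))
    have h2 : Continuous fun q : RS a × (Fin (bd a n) → ℕ) => cp a n q.1 q.2 :=
      continuous_prod_of_discrete_right.2 fun s =>
        (continuous_apply s).comp (continuous_ph (le_bd a n))
    have h3 : Continuous fun p : RS a × ((ℕ → ℕ) × (ℕ → ℕ)) => cp a n p.1 (p.2.1 ∘ t) :=
      h2.comp (continuous_fst.prodMk
        (continuous_pi fun j => (continuous_apply (t j)).comp hc1))
    exact isClosed_eq h3 continuous_const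
  have h4 : {y : RS a | y ∈ B ∧ NIso w g (cp a n y) f} = Prod.fst '' (S ∩ (Prod.fst ⁻¹' B)) := by
    ext y
    constructor
    · rintro ⟨hy, σ, h1, h2⟩
      exact ⟨(y, (σ, σ.symm)), ⟨⟨fun m => σ.apply_symm_apply m, fun m => σ.symm_apply_apply m,
        h1, h2⟩, hy⟩, rfl⟩
    · rintro ⟨⟨y', σ, τ⟩, ⟨⟨h1, h2, h3, h4⟩, h5⟩, rfl⟩
      exact ⟨h5, ⟨σ, τ, h2, h1⟩, h3, h4⟩
  rw [h4]
  exact (hS.measurableSet.inter (measurable_fst hB)).analyticSet_image measurable_fst

/-- The main step. -/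
theorem ucls (hNAM : S_NAM) (hI : S_INFN) : S_UCLS := by
  classical
  intro a C hC hiso
  rcases unbounded hNAM C hC hiso with hp | hcell
  · exact Or.inr hp
  have hP : PolishSpace (RS a) := by
    have h1 : SecondCountableTopology (RS a) := inferInstance
    have h2 : TopologicalSpace.IsCompletelyMetrizableSpace (RS a) := inferInstance
    exact {}
  set B : Set (RS a) := ⋃ n, C n with hBdef
  have hB : MeasurableSet B := MeasurableSet.iUnion fun n => (hC n).measurableSet
  have hcell' : ∀ x ∈ B, ∀ n, CellR {i | i < n} x := fun x hx n =>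
    hcell x hx _ (Set.finite_lt_nat n)
  -- representatives
  have hrep : ∀ n k : ℕ, ∃ rep : ℕ → St (bd a n) (Fin n → Bool) ℕ × (Fin k → ℕ),
      ∀ y, CellR {i | i < n} y → ∀ f : Fin k → ℕ, ∃ p,
        NIso (rep p).1 (rep p).2 (cp a n y) f := by
    intro n k
    obtain ⟨Z, hZ, hZ2⟩ := countable_cellular (bd a n) (Fin n → Bool)
    have h1 : ((Z ∪ {fun _ _ => false}) ×ˢ (univ : Set (Fin k → ℕ))).Countable :=
      (hZ.union (countable_singleton _)).prod countable_univ
    obtain ⟨rep, hrep⟩ := h1.exists_eq_range ⟨(fun _ _ => false, fun _ => 0),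
      Or.inr rfl, trivial⟩
    refine ⟨rep, fun y hy f => ?_⟩
    obtain ⟨w, hw, σ, hσ⟩ := hZ2 _ (cellular_cp hy)
    have h2 : (w, σ.symm ∘ f) ∈ range rep := by
      rw [← hrep]
      exact ⟨Or.inl hw, trivial⟩
    obtain ⟨p, hp⟩ := h2
    refine ⟨p, ?_⟩
    rw [hp]
    exact ⟨σ, fun j => σ.apply_symm_apply _, hσ⟩
  choose rep hrep using hrep
  let A : ∀ (n k : ℕ) (f : Fin k → ℕ) (p : ℕ), Set (RS a) := fun n k f p =>
    {y | y ∈ B ∧ NIso (rep n k p).1 (rep n k p).2 (cp a n y) f}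
  have hA : ∀ n k f p, MeasurableSet (A n k f p) := by
    intro n k f p
    refine (analytic_niso hB n k f _ _).measurableSet_of_compl ?_
    have h1 : (A n k f p)ᶜ = Bᶜ ∪ ⋃ q : {q : ℕ // ¬ NIso (rep n k q).1 (rep n k q).2
        (rep n k p).1 (rep n k p).2}, A n k f q := by
      ext y
      simp only [mem_compl_iff, mem_union, mem_iUnion]
      constructor
      · intro h
        by_cases hy : y ∈ B
        · right
          obtain ⟨q, hq⟩ := hrep n k y (hcell' y hy n) f
          exact ⟨⟨q, fun h2 => h ⟨hy, h2.symm.trans hq⟩⟩, hy, hq⟩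
        · exact Or.inl hy
      · rintro (h | ⟨⟨q, hq⟩, h1, h2⟩) h3
        · exact h h3.1
        · exact hq (h2.trans h3.2.symm)
    have h2 : AnalyticSet (A n k f p)ᶜ := by
      rw [h1]
      have h3 : AnalyticSet Bᶜ := hB.compl.analyticSet
      have h4 : AnalyticSet (⋃ q : {q : ℕ // ¬ NIso (rep n k q).1 (rep n k q).2
          (rep n k p).1 (rep n k p).2}, A n k f q) :=
        AnalyticSet.iUnion fun q => analytic_niso hB n k f _ _
      have h5 := AnalyticSet.iUnion (s := fun b : Bool => cond b Bᶜ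
        (⋃ q : {q : ℕ // ¬ NIso (rep n k q).1 (rep n k q).2
          (rep n k p).1 (rep n k p).2}, A n k f q)) (fun b => by cases b <;> assumption)
      have h6 : (⋃ b : Bool, cond b Bᶜ (⋃ q : {q : ℕ // ¬ NIso (rep n k q).1 (rep n k q).2
          (rep n k p).1 (rep n k p).2}, A n k f q)) = Bᶜ ∪ ⋃ q : {q : ℕ // ¬ NIso (rep n k q).1
          (rep n k q).2 (rep n k p).1 (rep n k p).2}, A n k f q := by
        ext y
        simp only [mem_iUnion, Bool.exists_bool, cond_false, cond_true, mem_union]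
        exact or_comm
      rwa [h6] at h5
    exact h2
  -- the codes
  let code : ∀ (n k : ℕ) (f : Fin k → ℕ), RS a → ℕ := fun n k f y =>
    sInf {p | NIso (rep n k p).1 (rep n k p).2 (cp a n y) f}
  have hcode : ∀ n k f, ∀ y ∈ B, NIso (rep n k (code n k f y)).1 (rep n k (code n k f y)).2
      (cp a n y) f := fun n k f y hy =>
    Nat.sInf_mem (s := {p | NIso (rep n k p).1 (rep n k p).2 (cp a n y) f})
      (hrep n k y (hcell' y hy n) f)
  have hcode_eq : ∀ n k (f f' : Fin k → ℕ) (y y' : RS a), NIso (cp a n y) f (cp a n y') f' →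
      code n k f y = code n k f' y' := by
    intro n k f f' y y' h
    show sInf _ = sInf _
    congr 1
    ext p
    exact ⟨fun h1 => h1.trans h, fun h1 => h1.trans h.symm⟩
  have hcode_red : ∀ k (f f' : Fin k → ℕ), ∀ y ∈ B, ∀ y' ∈ B,
      (fun n => code n k f y) = (fun n => code n k f' y') → ∀ n, RedIso n y f y' f' := by
    intro k f f' y hy y' hy' h n
    have h1 := hcode n k f y hy
    have h2 := hcode n k f' y' hy'
    have h3 : code n k f y = code n k f' y' := congrFun h n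
    rw [← h3] at h2
    exact redIso_iff.2 (h1.symm.trans h2)
  have hstd : StandardBorelSpace B := hB.standardBorel
  let J : (Σ k, Fin k → ℕ) → B → (ℕ → ℕ) := fun q y n => code n q.1 q.2 y.1
  have hJ : ∀ q, Measurable (J q) := by
    rintro ⟨k, f⟩
    refine measurable_pi_lambda _ fun n => measurable_to_countable' fun p => ?_
    have h1 : (fun y : B => code n k f y.1) ⁻¹' {p} = Subtype.val ⁻¹' (A n k f p \
        ⋃ q : {q : ℕ // q < p}, A n k f q) := by
      ext y
      simp only [mem_preimage, mem_singleton_iff, Set.mem_sdiff, mem_iUnion]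
      constructor
      · rintro rfl
        refine ⟨⟨y.2, hcode n k f y.1 y.2⟩, ?_⟩
        rintro ⟨⟨q, hq⟩, h2⟩
        exact Nat.notMem_of_lt_sInf hq h2.2
      · rintro ⟨h2, h3⟩
        apply le_antisymm
        · exact Nat.sInf_le h2.2
        · by_contra h4
          exact h3 ⟨⟨_, not_le.1 h4⟩, y.2, hcode n k f y.1 y.2⟩
    rw [h1]
    exact measurable_subtype_coe ((hA n k f p).diff (MeasurableSet.iUnion fun q => hA n k f q))
  by_cases hunc : (⋃ q, range (J q)).Countable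
  swap
  · right
    obtain ⟨h, h1, h2⟩ := Pool.Agent.H565R2.FO2.perfect_of_uncountable
      (Y := B) (X := RS a) (Z := ℕ → ℕ) (ι := Σ k, Fin k → ℕ)
      Subtype.val measurable_subtype_coe J hJ (fun y y' => RIso y.1 y'.1)
      (fun y y' hyy q => by
        obtain ⟨σ, hσ⟩ := hyy
        refine ⟨⟨q.1, σ ∘ q.2⟩, funext fun n => hcode_eq n q.1 q.2 (σ ∘ q.2) y.1 y'.1 ?_⟩
        exact redIso_iff.1 ⟨σ, fun j => rfl, fun i _ v => hσ i v⟩) hunc
    refine ⟨fun c => (h c).1, h1, fun c => (h c).2, fun c d hcd => ?_⟩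
    by_contra hne
    exact h2 c d hne hcd
  -- good pairs
  let Gd : Type := {w : (Σ _ : ℕ, ℕ → ℕ) // ∃ (y : RS a) (f : Fin w.1 → ℕ), y ∈ B ∧
    (fun n => code n w.1 f y) = w.2 ∧ Cl (Finset.univ.image f) y ⊆ B}
  have hGd : Countable Gd := by
    have h1 : ((univ : Set ℕ) ×ˢ (⋃ q, range (J q))).Countable := countable_univ.prod hunc
    have h2 : Injective fun w : Gd => (w.1.1, w.1.2) := by
      rintro ⟨⟨k, t⟩, _⟩ ⟨⟨k', t'⟩, _⟩ h
      simp only [Prod.mk.injEq] at h
      obtain ⟨rfl, rfl⟩ := h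
      rfl
    have h3 : range (fun w : Gd => (w.1.1, w.1.2)) ⊆ (univ : Set ℕ) ×ˢ (⋃ q, range (J q)) := by
      rintro _ ⟨⟨⟨k, t⟩, y, f, hy, h4, -⟩, rfl⟩
      exact ⟨trivial, mem_iUnion.2 ⟨⟨k, f⟩, ⟨y, hy⟩, h4⟩⟩
    have h4 : (univ : Set Gd).Countable :=
      Set.countable_of_injective_of_countable_image h2.injOn
        (by rw [image_univ]; exact h1.mono h3)
    exact countable_univ_iff.1 h4
  choose yy ff hyy hff hcl using fun w : Gd => w.2
  -- the class of a good pair is contained in `B`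
  have hsub : ∀ w : Gd, {z : RS a | ∃ g : Fin w.1.1 → ℕ, ∀ n, RedIso n (yy w) (ff w) z g} ⊆ B := by
    rintro w z ⟨g, hg⟩
    choose σ h1 h2 using hg
    let z' : RS a := fun i v => z i (σ 0 ∘ v)
    have h3 : z' ∈ B := by
      apply hcl w
      unfold Cl
      rw [mem_closure_iff]
      intro O hO hz
      obtain ⟨I, u, hu, hI⟩ := isOpen_pi_iff.1 hO _ hz
      let n : ℕ := I.sup id + 1
      let e : Equiv.Perm ℕ := ((σ 0).trans (σ n).symm)
      refine ⟨fun i v => yy w i (e ∘ v), hI fun i hi => ?_, ⟨e, fun m hm => ?_, fun i v => rfl⟩⟩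
      · have hin : i < n := Nat.lt_succ_of_le (Finset.le_sup (f := id) hi)
        have h4 : (fun v : Fin (a i) → ℕ => yy w i (e ∘ v)) = z' i := by
          funext v
          show yy w i (e ∘ v) = z i (σ 0 ∘ v)
          rw [← h2 n i hin (e ∘ v)]
          congr 1
          funext j
          show σ n ((σ n).symm (σ 0 (v j))) = _
          rw [Equiv.apply_symm_apply]
          rfl
        show (fun v : Fin (a i) → ℕ => yy w i (e ∘ v)) ∈ u i
        rw [h4]
        exact (hu i hi).2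
      · obtain ⟨j, -, rfl⟩ := Finset.mem_image.1 hm
        show (σ n).symm (σ 0 (ff w j)) = ff w j
        rw [h1 0 j, ← h1 n j, Equiv.symm_apply_apply]
    have h5 : z' ∈ ⋃ n, C n := h3
    exact hiso z' h5 z ⟨σ 0, fun i v => rfl⟩
  by_cases hall : ∀ w : Gd, ∃ D : Set (RS a), D.Countable ∧
      ∀ y ∈ {z : RS a | ∃ g : Fin w.1.1 → ℕ, ∀ n, RedIso n (yy w) (ff w) z g}, ∃ z ∈ D, RIso z y
  · left
    choose D hD hD2 using hall
    refine ⟨⋃ w, D w, countable_iUnion hD, fun y hy => ?_⟩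
    obtain ⟨F, hF⟩ := fsigma_cl C hC hiso y hy
    -- enumerate `F`
    let f : Fin F.card → ℕ := fun j => (F.equivFin.symm j : ℕ)
    have hf : Finset.univ.image f = F := by
      ext m
      simp only [Finset.mem_image, Finset.mem_univ, true_and]
      constructor
      · rintro ⟨j, rfl⟩
        exact (F.equivFin.symm j).2
      · intro hm
        exact ⟨F.equivFin ⟨m, hm⟩, by simp [f]⟩
    let w : Gd := ⟨⟨F.card, fun n => code n F.card f y⟩, y, f, hy, rfl, by rw [hf]; exact hF⟩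
    obtain ⟨z, hz, hzy⟩ := hD2 w y ⟨f, fun n => hcode_red F.card (ff w) f (yy w) (hyy w) y hy
      (hff w) n⟩
    exact ⟨z, mem_iUnion.2 ⟨w, hz⟩, hzy⟩
  · push Not at hall
    obtain ⟨w, hw⟩ := hall
    rcases hI a w.1.1 (yy w) (ff w) (hcell' _ (hyy w)) with ⟨D, hD, hD2⟩ | ⟨g, g1, g2, g3⟩
    · obtain ⟨y, hy, hy2⟩ := hw D hD
      obtain ⟨z, hz, hzy⟩ := hD2 y hy
      exact absurd hzy (hy2 z hz)
    · exact Or.inr ⟨g, g1, fun c => hsub w (g2 c), g3⟩

end Pool.Agent.L7h71.UA
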